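import Pool.Agent.helper91.ADV.SpecM

set_option autoImplicit false

namespace Pool.Agent.ADV

open Finset Pool.Agent.helper38.Neg Pool.Agent.helper55.NT Pool.Agent.LNB

theorem MAV_wtu_le (u n : ℕ) (z : Fin n → Bool) : wtu u z ≤ min u n := by
  unfold wtu
  refine le_trans (Finset.card_le_card (t := univ.filter fun i : Fin n => (i : ℕ) < u) ?_) ?_
  · intro i hi
    simp only [Finset.mem_filter, Finset.mem_univ, true_and] at hi ⊢
    exact hi.1
  · refine le_min ?_ ?_
    · have h : ((univ.filter fun i : Fin n => (i : ℕ) < u).image fun i : Fin n => (i : ℕ)) ⊆ Finset.range u := by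
        intro j hj
        simp only [Finset.mem_image, Finset.mem_filter, Finset.mem_univ, true_and] at hj
        obtain ⟨i, hi, rfl⟩ := hj
        exact Finset.mem_range.2 hi
      have h2 := Finset.card_le_card h
      rw [Finset.card_image_of_injective _ Fin.val_injective, Finset.card_range] at h2
      exact h2
    · refine le_trans (Finset.card_filter_le _ _) ?_
      simp

/-- The values at one point. -/
theorem MAV_point (u B w : ℕ) (hB : 1 ≤ B) {n : ℕ} (f : Fn n) (z : Fin n → Bool) :
    ((if (winu u (w * B) B f z = true ↔ f z = true) then (1 : ℝ) else 0) +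
      (1 - (if (winu u ((w + 1) * B) B (fun _ => true) z = true ↔ f z = true) then (1 : ℝ) else 0))) =
      1 + (if w = wtu u z / B then (if f z = true then (1 : ℝ) else 0) else 0) := by
  have hB0 : 0 < B := hB
  have e1 : (w + 1) * B = w * B + B := Nat.succ_mul w B
  unfold winu
  rcases lt_trichotomy w (wtu u z / B) with h | h | h
  · have h1 : w * B + B ≤ wtu u z := by
      rw [← e1]
      exact le_trans (Nat.mul_le_mul_right B h) (Nat.div_mul_le_self _ _)
    have h3 : ¬ (w = wtu u z / B) := by omega
    rw [if_neg h3, e1]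
    cases hf : f z <;> simp [h1]
  · have h1 : ¬ (w * B + B ≤ wtu u z) := by
      rw [h]
      have := Nat.lt_div_mul_add (a := wtu u z) hB0
      omega
    have h2 : w * B ≤ wtu u z := by
      rw [h]
      exact Nat.div_mul_le_self _ _
    have h4 : ¬ (w * B + B + B ≤ wtu u z) := by omega
    rw [if_pos h, e1]
    cases hf : f z <;> simp [h1, h2, h4]
  · have h2 : ¬ (w * B ≤ wtu u z) := by
      intro h'
      have := (Nat.le_div_iff_mul_le hB0).2 h'
      omega
    have h1 : ¬ (w * B + B ≤ wtu u z) := by omega
    have h4 : ¬ (w * B + B + B ≤ wtu u z) := by omega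
    have h3 : ¬ (w = wtu u z / B) := by omega
    rw [if_neg h3, e1]
    cases hf : f z <;> simp [h1, h2, h4]

/-- The value of the last window. -/
theorem MAV_last (u B : ℕ) (hB : 1 ≤ B) {n : ℕ} (f : Fn n) (z : Fin n → Bool) :
    (if (winu u (min u n / B * B) B f z = true ↔ f z = true) then (1 : ℝ) else 0) =
      1 - (if wtu u z / B < min u n / B then (if f z = true then (1 : ℝ) else 0) else 0) := by
  have hB0 : 0 < B := hB
  have hle : wtu u z / B ≤ min u n / B := Nat.div_le_div_right (MAV_wtu_le u n z)
  have h1 : ¬ (min u n / B * B + B ≤ wtu u z) := by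
    have h5 := Nat.lt_div_mul_add (a := min u n) hB0
    have h6 := MAV_wtu_le u n z
    omega
  unfold winu
  rcases lt_or_eq_of_le hle with h | h
  · have h2 : ¬ (min u n / B * B ≤ wtu u z) := by
      intro h'
      have := (Nat.le_div_iff_mul_le hB0).2 h'
      omega
    rw [if_pos h]
    cases hf : f z <;> simp [h1, h2]
  · have h2 : min u n / B * B ≤ wtu u z := by
      rw [← h]
      exact Nat.div_mul_le_self _ _
    have h3 : ¬ (wtu u z / B < min u n / B) := by omega
    rw [if_neg h3]
    cases hf : f z <;> simp [h1, h2]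

theorem MAV (h1 : ADL_stmt) : MAV_stmt := by
  classical
  intro n u B hB f D hD
  have hB0 : 0 < B := hB
  obtain ⟨q, hq⟩ : ∃ q : ℕ, min u n / B = q := ⟨_, rfl⟩
  rw [hq]
  by_contra hcon
  push Not at hcon
  have hqpos : (0 : ℝ) < 4 * (q : ℝ) + 2 := by positivity
  have key : ∀ z : Fin n → Bool, (∑ w ∈ Finset.range q,
      ((if (winu u (w * B) B f z = true ↔ f z = true) then (1 : ℝ) else 0) +
      (1 - (if (winu u ((w + 1) * B) B (fun _ => true) z = true ↔ f z = true) then (1 : ℝ) else 0)))) +
      (if (winu u (q * B) B f z = true ↔ f z = true) then (1 : ℝ) else 0) = (q : ℝ) + 1 := by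
    intro z
    rw [Finset.sum_congr rfl fun w _ => MAV_point u B w hB f z, Finset.sum_add_distrib, Finset.sum_const,
      Finset.card_range, nsmul_eq_mul, mul_one, Finset.sum_ite_eq', ← hq, MAV_last u B hB f z]
    simp only [Finset.mem_range]
    ring
  have hagr : ∀ g : Fn n, agr D (fun x => f x = true) g =
      ∑ z, D z * (if (g z = true ↔ f z = true) then (1 : ℝ) else 0) := by
    intro g
    unfold agr
    refine Finset.sum_congr rfl fun z _ => ?_
    split_ifs <;> simp
  have hone : ∀ g : Fn n, 1 - agr D (fun x => f x = true) g =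
      ∑ z, D z * (1 - (if (g z = true ↔ f z = true) then (1 : ℝ) else 0)) := by
    intro g
    have e3 : ∀ z : Fin n → Bool, D z * (1 - (if (g z = true ↔ f z = true) then (1 : ℝ) else 0)) =
        D z - D z * (if (g z = true ↔ f z = true) then (1 : ℝ) else 0) := fun z => by ring
    rw [Finset.sum_congr rfl fun z _ => e3 z, Finset.sum_sub_distrib, hD.2, hagr g]
  have hsum : (∑ w ∈ Finset.range q, (agr D (fun x => f x = true) (winu u (w * B) B f) +
      (1 - agr D (fun x => f x = true) (winu u ((w + 1) * B) B fun _ => true)))) +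
      agr D (fun x => f x = true) (winu u (q * B) B f) = (q : ℝ) + 1 := by
    have e1 : ∀ w : ℕ, agr D (fun x => f x = true) (winu u (w * B) B f) +
      (1 - agr D (fun x => f x = true) (winu u ((w + 1) * B) B fun _ => true)) =
      ∑ z, D z * ((if (winu u (w * B) B f z = true ↔ f z = true) then (1 : ℝ) else 0) +
        (1 - (if (winu u ((w + 1) * B) B (fun _ => true) z = true ↔ f z = true) then (1 : ℝ) else 0))) := by
      intro w
      rw [hone, hagr, ← Finset.sum_add_distrib]
      refine Finset.sum_congr rfl fun z _ => ?_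
      ring
    rw [Finset.sum_congr rfl fun w _ => e1 w, Finset.sum_comm, hagr, ← Finset.sum_add_distrib]
    have e2 : ∀ z : Fin n → Bool, (∑ w ∈ Finset.range q, D z *
        ((if (winu u (w * B) B f z = true ↔ f z = true) then (1 : ℝ) else 0) +
        (1 - (if (winu u ((w + 1) * B) B (fun _ => true) z = true ↔ f z = true) then (1 : ℝ) else 0)))) +
        D z * (if (winu u (q * B) B f z = true ↔ f z = true) then (1 : ℝ) else 0) = D z * ((q : ℝ) + 1) := by
      intro z
      rw [← Finset.mul_sum, ← mul_add, key z]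
    rw [Finset.sum_congr rfl fun z _ => e2 z, ← Finset.sum_mul, hD.2, one_mul]
  have hA : ∀ w : ℕ, agr D (fun x => f x = true) (winu u (w * B) B f) < 1 / 2 + 1 / (4 * (q : ℝ) + 2) := by
    intro w
    have h := (hcon (w * B)).1
    unfold adv at h
    have h2 := (abs_lt.1 h).2
    linarith
  have hT : ∀ w : ℕ, 1 - agr D (fun x => f x = true) (winu u (w * B) B fun _ => true) <
      1 / 2 + 1 / (4 * (q : ℝ) + 2) := by
    intro w
    have h := (hcon (w * B)).2
    unfold adv at h
    have h2 := (abs_lt.1 h).1
    linarith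
  have hle : (∑ w ∈ Finset.range q, (agr D (fun x => f x = true) (winu u (w * B) B f) +
      (1 - agr D (fun x => f x = true) (winu u ((w + 1) * B) B fun _ => true)))) ≤
      ∑ w ∈ Finset.range q, (1 + 2 * (1 / (4 * (q : ℝ) + 2))) := by
    refine Finset.sum_le_sum fun w _ => ?_
    have h2 := hA w
    have h3 := hT (w + 1)
    linarith
  rw [Finset.sum_const, Finset.card_range, nsmul_eq_mul] at hle
  have h4 := hA q
  have h5 : (q : ℝ) * (1 + 2 * (1 / (4 * (q : ℝ) + 2))) + (1 / 2 + 1 / (4 * (q : ℝ) + 2)) = (q : ℝ) + 1 := by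
    field_simp
    ring
  linarith

end Pool.Agent.ADV
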